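import Pool.Agent.Helper11.QR.TB

/-!
# Row T08: the closed formula satisfies Tutte's equation
-/

namespace QR
namespace H11

noncomputable section

open PowerSeries

/-- the series `R` -/
def RS : PowerSeries ℝ := PowerSeries.mk fun N => 3 ^ N * ct N

theorem ct_zero : ct 0 = 1 := by simp [ct]

theorem S_cc (p : ℕ) : ∑ ij ∈ Finset.HasAntidiagonal.antidiagonal p, ct ij.1 * ct ij.2 = ct (p + 1) := by
  unfold ct
  rw [catalan_succ']
  push_cast
  rfl

theorem S_cd (p : ℕ) : ∑ ij ∈ Finset.HasAntidiagonal.antidiagonal p, ct ij.1 * ct (ij.2 + 1) =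
    ct (p + 2) - ct (p + 1) := by
  have h := S_cc (p + 1)
  rw [Finset.Nat.sum_antidiagonal_succ'] at h
  simp only [ct_zero, mul_one] at h
  linarith

theorem S_dc (p : ℕ) : ∑ ij ∈ Finset.HasAntidiagonal.antidiagonal p, ct (ij.1 + 1) * ct ij.2 =
    ct (p + 2) - ct (p + 1) := by
  have h := S_cc (p + 1)
  rw [Finset.Nat.sum_antidiagonal_succ] at h
  simp only [ct_zero, one_mul] at h
  linarith

theorem S_dd (p : ℕ) : ∑ ij ∈ Finset.HasAntidiagonal.antidiagonal p, ct (ij.1 + 1) * ct (ij.2 + 1) =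
    ct (p + 3) - 2 * ct (p + 2) := by
  have h := S_cd (p + 1)
  rw [Finset.Nat.sum_antidiagonal_succ] at h
  simp only [ct_zero, one_mul] at h
  linarith

theorem S_aa (p : ℕ) : ∑ ij ∈ Finset.HasAntidiagonal.antidiagonal p, al ij.1 * al ij.2 =
    (ct (p + 3) + 2 * ct (p + 2)) / 9 := by
  have h1 : ∑ ij ∈ Finset.HasAntidiagonal.antidiagonal p, al ij.1 * al ij.2 =
      (∑ ij ∈ Finset.HasAntidiagonal.antidiagonal p, ct (ij.1 + 1) * ct (ij.2 + 1) +
        2 * ∑ ij ∈ Finset.HasAntidiagonal.antidiagonal p, ct ij.1 * ct (ij.2 + 1) +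
        2 * ∑ ij ∈ Finset.HasAntidiagonal.antidiagonal p, ct (ij.1 + 1) * ct ij.2 +
        4 * ∑ ij ∈ Finset.HasAntidiagonal.antidiagonal p, ct ij.1 * ct ij.2) / 9 := by
    rw [Finset.mul_sum, Finset.mul_sum, Finset.mul_sum, ← Finset.sum_add_distrib,
      ← Finset.sum_add_distrib, ← Finset.sum_add_distrib, Finset.sum_div]
    apply Finset.sum_congr rfl
    intro ij _
    unfold al
    ring
  rw [h1, S_dd, S_cd, S_dc, S_cc]
  ring

theorem S_bb (p : ℕ) : ∑ ij ∈ Finset.HasAntidiagonal.antidiagonal p, be ij.1 * be ij.2 =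
    (ct (p + 3) - 4 * ct (p + 2) + 3 * ct (p + 1)) / 9 := by
  have h1 : ∑ ij ∈ Finset.HasAntidiagonal.antidiagonal p, be ij.1 * be ij.2 =
      (∑ ij ∈ Finset.HasAntidiagonal.antidiagonal p, ct (ij.1 + 1) * ct (ij.2 + 1) -
        ∑ ij ∈ Finset.HasAntidiagonal.antidiagonal p, ct ij.1 * ct (ij.2 + 1) -
        ∑ ij ∈ Finset.HasAntidiagonal.antidiagonal p, ct (ij.1 + 1) * ct ij.2 +
        ∑ ij ∈ Finset.HasAntidiagonal.antidiagonal p, ct ij.1 * ct ij.2) / 9 := by
    rw [← Finset.sum_sub_distrib, ← Finset.sum_sub_distrib, ← Finset.sum_add_distrib,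
      Finset.sum_div]
    apply Finset.sum_congr rfl
    intro ij _
    unfold be
    ring
  rw [h1, S_dd, S_cd, S_dc, S_cc]
  ring

theorem S_ab (p : ℕ) : ∑ ij ∈ Finset.HasAntidiagonal.antidiagonal p, (al ij.1 * be ij.2 + be ij.1 * al ij.2) =
    2 * (ct (p + 3) - ct (p + 2) - 3 * ct (p + 1)) / 9 := by
  have h1 : ∑ ij ∈ Finset.HasAntidiagonal.antidiagonal p, (al ij.1 * be ij.2 + be ij.1 * al ij.2) =
      (2 * ∑ ij ∈ Finset.HasAntidiagonal.antidiagonal p, ct (ij.1 + 1) * ct (ij.2 + 1) +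
        ∑ ij ∈ Finset.HasAntidiagonal.antidiagonal p, ct ij.1 * ct (ij.2 + 1) +
        ∑ ij ∈ Finset.HasAntidiagonal.antidiagonal p, ct (ij.1 + 1) * ct ij.2 -
        4 * ∑ ij ∈ Finset.HasAntidiagonal.antidiagonal p, ct ij.1 * ct ij.2) / 9 := by
    rw [Finset.mul_sum, Finset.mul_sum, ← Finset.sum_add_distrib,
      ← Finset.sum_add_distrib, ← Finset.sum_sub_distrib, Finset.sum_div]
    apply Finset.sum_congr rfl
    intro ij _
    unfold al be
    ring
  rw [h1, S_dd, S_cd, S_dc, S_cc]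
  ring

theorem RS_eq : RS = 1 + C 3 * (X * RS ^ 2) := by
  ext n
  rcases n with _ | n
  · simp [RS, ct_zero]
  · rw [map_add, coeff_C_mul, coeff_succ_X_mul, pow_two, coeff_mul]
    unfold RS
    simp only [coeff_mk]
    rw [coeff_one, if_neg (Nat.succ_ne_zero n), zero_add]
    have h : ∀ ij ∈ Finset.HasAntidiagonal.antidiagonal n, (3 : ℝ) ^ ij.1 * ct ij.1 * (3 ^ ij.2 * ct ij.2) =
        3 ^ n * (ct ij.1 * ct ij.2) := by
      intro ij hij
      have := Finset.HasAntidiagonal.mem_antidiagonal.mp hij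
      rw [← this, pow_add]
      ring
    rw [Finset.sum_congr rfl h, ← Finset.mul_sum, S_cc]
    ring

theorem RS_rec (P : ℕ) : RS ^ (P + 1) = RS ^ P + C 3 * (X * RS ^ (P + 2)) := by
  have h : RS ^ (P + 1) = RS ^ P * (1 + C 3 * (X * RS ^ 2)) := by
    rw [← RS_eq, pow_succ]
  rw [h]
  ring

theorem coeff_RS (N : ℕ) : ∀ P, coeff N (RS ^ P) = fr N P := by
  induction N with
  | zero =>
    intro P
    rw [fr_zero]
    rw [coeff_zero_eq_constantCoeff_apply, map_pow]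
    have : constantCoeff RS = 1 := by
      rw [← coeff_zero_eq_constantCoeff_apply]
      simp [RS, ct_zero]
    rw [this, one_pow]
  | succ N ih =>
    intro P
    induction P with
    | zero =>
      rw [fr_nil, pow_zero, coeff_one, if_neg (Nat.succ_ne_zero N)]
    | succ P ihP =>
      rw [RS_rec, map_add, coeff_C_mul, coeff_succ_X_mul, ihP, ih, fr_rec]

/-- the generating function of `UN` -/
def WS (P : ℕ) : PowerSeries ℝ := (C (al P) - C (be P) * RS) * RS ^ P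

theorem coeff_WS (N P : ℕ) : coeff N (WS P) = UN N P := by
  unfold WS
  have : (C (al P) - C (be P) * RS) * RS ^ P = C (al P) * RS ^ P - C (be P) * RS ^ (P + 1) := by
    ring
  rw [this, map_sub, coeff_C_mul, coeff_C_mul, coeff_RS, coeff_RS, UN_eq]

theorem WS_sum (p : ℕ) : ∑ ij ∈ Finset.HasAntidiagonal.antidiagonal p, WS ij.1 * WS ij.2 =
    RS ^ p * (C ((ct (p + 3) + 2 * ct (p + 2)) / 9) -
      C (2 * (ct (p + 3) - ct (p + 2) - 3 * ct (p + 1)) / 9) * RS +
      C ((ct (p + 3) - 4 * ct (p + 2) + 3 * ct (p + 1)) / 9) * RS ^ 2) := by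
  rw [← S_aa, ← S_bb, ← S_ab, map_sum, map_sum, map_sum, Finset.sum_mul, Finset.sum_mul,
    ← Finset.sum_sub_distrib, ← Finset.sum_add_distrib, Finset.mul_sum]
  apply Finset.sum_congr rfl
  intro ij hij
  have h := Finset.HasAntidiagonal.mem_antidiagonal.mp hij
  unfold WS
  rw [← h, pow_add, map_mul, map_mul, map_add, map_mul, map_mul]
  ring

theorem XRS : C 3 * (X * RS ^ 2) = RS - 1 := by
  have := RS_eq
  nth_rewrite 2 [this]
  ring

theorem tutte (p : ℕ) : ∑ ij ∈ Finset.HasAntidiagonal.antidiagonal p, WS ij.1 * WS ij.2 + X * WS (p + 2) =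
    WS (p + 1) := by
  rw [WS_sum]
  have h3 : (C 3 : PowerSeries ℝ) ≠ 0 := by
    intro h
    have := congrArg (coeff 0) h
    simp at this
  apply mul_left_cancel₀ h3
  have e1 : X * WS (p + 2) = (C (al (p + 2)) - C (be (p + 2)) * RS) * RS ^ p * (X * RS ^ 2) := by
    unfold WS
    rw [pow_add]
    ring
  rw [mul_add, e1]
  have e2 : C 3 * ((C (al (p + 2)) - C (be (p + 2)) * RS) * RS ^ p * (X * RS ^ 2)) =
      (C (al (p + 2)) - C (be (p + 2)) * RS) * RS ^ p * (RS - 1) := by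
    rw [← XRS]
    ring
  rw [e2]
  unfold WS al be
  have k1 : (C ((ct (p + 2 + 1) + 2 * ct (p + 2)) / 3) : PowerSeries ℝ) =
      C (1 / 3) * (C (ct (p + 3)) + 2 * C (ct (p + 2))) := by
    rw [← map_ofNat (C (R := ℝ)) 2, ← map_mul, ← map_add, ← map_mul]
    congr 1
    ring
  have k2 : (C ((ct (p + 2 + 1) - ct (p + 2)) / 3) : PowerSeries ℝ) =
      C (1 / 3) * (C (ct (p + 3)) - C (ct (p + 2))) := by
    rw [← map_sub, ← map_mul]
    congr 1
    ring
  have k3 : (C ((ct (p + 1 + 1) + 2 * ct (p + 1)) / 3) : PowerSeries ℝ) =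
      C (1 / 3) * (C (ct (p + 2)) + 2 * C (ct (p + 1))) := by
    rw [← map_ofNat (C (R := ℝ)) 2, ← map_mul, ← map_add, ← map_mul]
    congr 1
    ring
  have k4 : (C ((ct (p + 1 + 1) - ct (p + 1)) / 3) : PowerSeries ℝ) =
      C (1 / 3) * (C (ct (p + 2)) - C (ct (p + 1))) := by
    rw [← map_sub, ← map_mul]
    congr 1
    ring
  have k5 : (C ((ct (p + 3) + 2 * ct (p + 2)) / 9) : PowerSeries ℝ) =
      C (1 / 3) * (C (1 / 3) * (C (ct (p + 3)) + 2 * C (ct (p + 2)))) := by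
    rw [← map_ofNat (C (R := ℝ)) 2, ← map_mul, ← map_add, ← map_mul, ← map_mul]
    congr 1
    ring
  have k6 : (C (2 * (ct (p + 3) - ct (p + 2) - 3 * ct (p + 1)) / 9) : PowerSeries ℝ) =
      C (1 / 3) * (C (1 / 3) * (2 * (C (ct (p + 3)) - C (ct (p + 2)) - 3 * C (ct (p + 1))))) := by
    rw [← map_ofNat (C (R := ℝ)) 2, ← map_ofNat (C (R := ℝ)) 3, ← map_mul, ← map_sub, ← map_sub,
      ← map_mul, ← map_mul, ← map_mul]
    congr 1
    ring
  have k7 : (C ((ct (p + 3) - 4 * ct (p + 2) + 3 * ct (p + 1)) / 9) : PowerSeries ℝ) =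
      C (1 / 3) * (C (1 / 3) * (C (ct (p + 3)) - 4 * C (ct (p + 2)) + 3 * C (ct (p + 1)))) := by
    rw [← map_ofNat (C (R := ℝ)) 4, ← map_ofNat (C (R := ℝ)) 3, ← map_mul, ← map_mul, ← map_sub,
      ← map_add, ← map_mul, ← map_mul]
    congr 1
    ring
  rw [k1, k2, k3, k4, k5, k6, k7]
  have hc : (C 3 : PowerSeries ℝ) * C (1 / 3) = 1 := by
    rw [← map_mul]
    norm_num
  have h33 : (C 3 : PowerSeries ℝ) = 3 := map_ofNat (C (R := ℝ)) 3
  rw [h33] at hc ⊢
  generalize (C (1 / 3) : PowerSeries ℝ) = t at *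
  generalize (C (ct (p + 3)) : PowerSeries ℝ) = x3
  generalize (C (ct (p + 2)) : PowerSeries ℝ) = x2
  generalize (C (ct (p + 1)) : PowerSeries ℝ) = x1
  have hp : RS ^ (p + 1) = RS ^ p * RS := pow_succ _ _
  rw [hp]
  generalize RS ^ p = y
  generalize RS = r
  linear_combination (y * ((x3 + 2 * x2) * t - 2 * (x3 - x2 - 3 * x1) * r * t +
    (x3 - 4 * x2 + 3 * x1) * r ^ 2 * t - 2 * (x2 + 2 * x1) * r * t * 0)) * hc

end

end H11

theorem st_T08 : ST_T08 := by
  intro N P hP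
  obtain ⟨p, rfl⟩ : ∃ p, P = p + 1 := ⟨P - 1, by omega⟩
  have h := congrArg (PowerSeries.coeff N) (H11.tutte p)
  rw [map_add, H11.coeff_WS, map_sum] at h
  rw [← h]
  congr 1
  · rw [Finset.sum_comm]
    rw [Finset.Nat.sum_antidiagonal_eq_sum_range_succ_mk]
    apply Finset.sum_congr rfl
    intro b _
    rw [PowerSeries.coeff_mul, Finset.Nat.sum_antidiagonal_eq_sum_range_succ_mk]
    apply Finset.sum_congr rfl
    intro a _
    simp only [H11.coeff_WS]
    rw [show p + 1 - 1 - b = p - b by omega]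
  · rcases N with _ | N
    · simp
    · rw [if_neg (Nat.succ_ne_zero N), PowerSeries.coeff_succ_X_mul, H11.coeff_WS]
      rfl

end QR
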