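import Pool.Agent.Helper11.QR.T12
import Mathlib.Analysis.SpecialFunctions.Stirling

/-!
# Row T10: asymptotics of `uu`
-/

namespace QR
namespace H11

noncomputable section

open Filter Topology

theorem cb_fac (N : ℕ) : ((2 * N).factorial : ℝ) = cb N * 4 ^ N * (N.factorial * N.factorial) := by
  have h2 : N.centralBinom * N.factorial * N.factorial = (2 * N).factorial := by
    have := Nat.choose_mul_factorial_mul_factorial (show N ≤ 2 * N by omega)
    rw [show 2 * N - N = N by omega] at this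
    rw [Nat.centralBinom_eq_two_mul_choose]
    exact this
  have h4 : (N.centralBinom * N.factorial * N.factorial : ℝ) = (2 * N).factorial := by
    exact_mod_cast h2
  unfold cb
  rw [← h4, div_mul_cancel₀ _ (by positivity)]
  ring

theorem cb_stirling (N : ℕ) (hN : 1 ≤ N) :
    cb N * Real.sqrt N = Stirling.stirlingSeq (2 * N) / (Stirling.stirlingSeq N) ^ 2 := by
  unfold Stirling.stirlingSeq
  rw [cb_fac N]
  have hN0 : (0 : ℝ) < N := by exact_mod_cast hN
  have h1 : Real.sqrt (2 * ((2 * N : ℕ) : ℝ)) = 2 * Real.sqrt N := by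
    push_cast
    rw [show (2 : ℝ) * (2 * N) = 2 ^ 2 * N by ring, Real.sqrt_mul (by positivity),
      Real.sqrt_sq (by norm_num)]
  have h2 : (Real.sqrt (2 * N)) ^ 2 = 2 * N := Real.sq_sqrt (by positivity)
  have h3 : Real.sqrt N * Real.sqrt N = N := Real.mul_self_sqrt (by positivity)
  have h4 : Real.sqrt N ≠ 0 := (Real.sqrt_pos.mpr hN0).ne'
  have h5 := fac_ne N
  rw [h1, div_pow (N.factorial : ℝ), mul_pow, h2]
  have h6 : (((2 * N : ℕ) : ℝ) / Real.exp 1) ^ (2 * N) =
      4 ^ N * (((N : ℝ) / Real.exp 1) ^ N) ^ 2 := by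
    push_cast
    rw [mul_div_assoc, mul_pow, pow_mul, show (2 : ℝ) ^ 2 = 4 by norm_num, ← pow_mul, mul_comm N 2]
  rw [h6]
  have h7 : ((N : ℝ) / Real.exp 1) ^ N ≠ 0 := by positivity
  have h8 : (4 : ℝ) ^ N ≠ 0 := by positivity
  generalize ((N : ℝ) / Real.exp 1) ^ N = y at *
  generalize (4 : ℝ) ^ N = x at *
  rw [div_div_eq_mul_div, eq_div_iff (by positivity)]
  have h9 : Real.sqrt N ^ 2 = N := Real.sq_sqrt hN0.le
  field_simp
  rw [h9]

theorem cb_lim : Tendsto (fun N : ℕ => cb N * Real.sqrt N) atTop (𝓝 (1 / Real.sqrt Real.pi)) := by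
  have h1 := Stirling.tendsto_stirlingSeq_sqrt_pi
  have h2 : Tendsto (fun N : ℕ => Stirling.stirlingSeq (2 * N)) atTop (𝓝 (Real.sqrt Real.pi)) :=
    h1.comp (tendsto_id.const_mul_atTop' (by norm_num))
  have hpi : Real.sqrt Real.pi ≠ 0 := (Real.sqrt_pos.mpr Real.pi_pos).ne'
  have h3 := h2.div (h1.pow 2) (pow_ne_zero 2 hpi)
  have h4 : Real.sqrt Real.pi / Real.sqrt Real.pi ^ 2 = 1 / Real.sqrt Real.pi := by
    field_simp
  rw [h4] at h3
  refine h3.congr' ?_
  filter_upwards [eventually_ge_atTop 1] with N hN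
  simp only [Pi.div_apply]
  exact (cb_stirling N hN).symm

theorem asc_lim (a : ℕ) (k : ℕ) : Tendsto
    (fun N : ℕ => ((a * N + 1).ascFactorial k : ℝ) / (N : ℝ) ^ k) atTop (𝓝 ((a : ℝ) ^ k)) := by
  induction k with
  | zero => simp
  | succ k ih =>
    have h1 : Tendsto (fun N : ℕ => ((a * N + 1 + k : ℕ) : ℝ) / (N : ℝ)) atTop (𝓝 (a : ℝ)) := by
      have h2 : Tendsto (fun N : ℕ => (a : ℝ) + (1 + k : ℝ) / (N : ℝ)) atTop (𝓝 ((a : ℝ) + 0)) :=
        (tendsto_const_div_atTop_nhds_zero_nat (1 + k : ℝ)).const_add (a : ℝ)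
      rw [add_zero] at h2
      refine h2.congr' ?_
      filter_upwards [eventually_ge_atTop 1] with N hN
      have : (N : ℝ) ≠ 0 := by positivity
      push_cast
      field_simp
      ring
    have h3 := h1.mul ih
    rw [show (a : ℝ) * (a : ℝ) ^ k = (a : ℝ) ^ (k + 1) by ring] at h3
    refine h3.congr ?_
    intro N
    rw [Nat.ascFactorial_succ]
    push_cast
    rw [pow_succ]
    ring

end

end H11

open Filter Topology in
theorem st_T10 : ST_T10 := by
  intro P hP
  obtain ⟨p, rfl⟩ : ∃ p, P = p + 1 := ⟨P - 1, by omega⟩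
  have h1 := H11.cb_lim
  have h2 := H11.asc_lim 2 p
  have h3 := H11.asc_lim 1 (p + 2)
  have h4 := (h1.mul (h2.div h3 (by simp))).const_mul
    (((2 * (p + 1)).factorial : ℝ) / ((p + 1).factorial * p.factorial))
  have h5 : ((2 * (p + 1)).factorial : ℝ) / ((p + 1).factorial * p.factorial) *
      (1 / Real.sqrt Real.pi * ((2 : ℕ) : ℝ) ^ p / (((1 : ℕ) : ℝ) ^ (p + 2))) = cP (p + 1) := by
    unfold cP
    have e1 : ((2 * (p + 1)).choose (p + 1) : ℝ) * ((p + 1).factorial * (p + 1).factorial) =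
        (2 * (p + 1)).factorial := by
      have := Nat.choose_mul_factorial_mul_factorial (show p + 1 ≤ 2 * (p + 1) by omega)
      rw [show 2 * (p + 1) - (p + 1) = p + 1 by omega] at this
      rw [← this]
      push_cast
      ring
    rw [← e1, H11.fac_succ p]
    have e2 := H11.fac_ne p
    have e3 : Real.sqrt Real.pi ≠ 0 := (Real.sqrt_pos.mpr Real.pi_pos).ne'
    push_cast
    rw [pow_succ]
    field_simp
    try ring
  have h6 : ((2 * (p + 1)).factorial : ℝ) / ((p + 1).factorial * p.factorial) *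
      (1 / Real.sqrt Real.pi * (((2 : ℕ) : ℝ) ^ p / (((1 : ℕ) : ℝ) ^ (p + 2)))) = cP (p + 1) := by
    rw [← h5]
    ring
  rw [h6] at h4
  refine h4.congr' ?_
  filter_upwards [eventually_ge_atTop 1] with N hN
  have hN0 : (0 : ℝ) < N := by exact_mod_cast hN
  unfold uu
  rw [show 2 * N + (p + 1) - 1 = 2 * N + p by omega, show p + 1 - 1 = p by omega,
    show N + (p + 1) + 1 = N + (p + 2) by omega]
  have e1 : ((2 * N + p).factorial : ℝ) = (2 * N).factorial * ((2 * N + 1).ascFactorial p : ℝ) := by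
    rw [← Nat.factorial_mul_ascFactorial]
    push_cast
    rfl
  have e2 : ((N + (p + 2)).factorial : ℝ) = N.factorial * ((N + 1).ascFactorial (p + 2) : ℝ) := by
    rw [← Nat.factorial_mul_ascFactorial]
    push_cast
    rfl
  rw [e1, e2, H11.cb_fac N]
  have h8 : (N : ℝ) ^ (5 / 2 : ℝ) = N ^ 2 * Real.sqrt N := by
    rw [Real.sqrt_eq_rpow, ← Real.rpow_natCast, ← Real.rpow_add (by positivity)]
    norm_num
  rw [h8]
  simp only [Pi.div_apply, one_mul]
  have f1 := H11.fac_ne p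
  have f2 := H11.fac_ne N
  have f3 := H11.fac_ne (p + 1)
  have f4 : ((N + 1).ascFactorial (p + 2) : ℝ) ≠ 0 := by
    exact_mod_cast (Nat.ascFactorial_pos N (p + 2)).ne'
  rw [show (12 : ℝ) = 3 * 4 by norm_num, mul_pow]
  have f5 : (N : ℝ) ≠ 0 := hN0.ne'
  field_simp
  try ring

end QR
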