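import Pool.Agent.Helper11.QR.TB

/-!
# Row T12: the critical sums
-/

namespace QR
namespace H11

noncomputable section

open Filter Topology

/-- the central binomial coefficient divided by `4 ^ n` -/
def cb (n : ℕ) : ℝ := n.centralBinom / 4 ^ n

theorem cb_nonneg (n : ℕ) : 0 ≤ cb n := by unfold cb; positivity

theorem cb_succ (n : ℕ) : cb (n + 1) * (2 * n + 2) = cb n * (2 * n + 1) := by
  have h := Nat.succ_mul_centralBinom_succ n
  have h1 : ((n : ℝ) + 1) * (n + 1).centralBinom = 2 * (2 * n + 1) * n.centralBinom := by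
    exact_mod_cast h
  unfold cb
  rw [pow_succ]
  field_simp
  linear_combination 2 * h1

theorem cb_sq (n : ℕ) : cb n ^ 2 * (2 * n + 1) ≤ 1 := by
  induction n with
  | zero => simp [cb]
  | succ n ih =>
    have h1 := cb_succ n
    have h2 : cb (n + 1) = cb n * (2 * n + 1) / (2 * n + 2) := by
      rw [eq_div_iff (by positivity)]
      exact h1
    rw [h2]
    have h3 : (cb n * (2 * n + 1) / (2 * n + 2)) ^ 2 * (2 * ((n + 1 : ℕ) : ℝ) + 1) =
        (cb n ^ 2 * (2 * n + 1)) * ((2 * n + 1) * (2 * n + 3) / (2 * n + 2) ^ 2) := by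
      push_cast
      field_simp
      ring
    rw [h3]
    have h4 : ((2 * n + 1) * (2 * n + 3) / (2 * n + 2) ^ 2 : ℝ) ≤ 1 := by
      rw [div_le_one (by positivity)]
      nlinarith
    calc (cb n ^ 2 * (2 * n + 1)) * ((2 * n + 1) * (2 * n + 3) / (2 * n + 2) ^ 2)
        ≤ 1 * 1 := by
          apply mul_le_mul ih h4 (by positivity) (by norm_num)
      _ = 1 := by norm_num

theorem cb_le (n : ℕ) : cb n ≤ 1 / Real.sqrt (2 * n + 1) := by
  rw [le_div_iff₀ (by positivity)]
  have h := cb_sq n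
  have h1 : 0 ≤ cb n * Real.sqrt (2 * n + 1) := mul_nonneg (cb_nonneg n) (Real.sqrt_nonneg _)
  have h2 : (cb n * Real.sqrt (2 * n + 1)) ^ 2 ≤ 1 := by
    rw [mul_pow, Real.sq_sqrt (by positivity)]
    exact h
  nlinarith

theorem cb_tendsto : Tendsto cb atTop (𝓝 0) := by
  apply squeeze_zero cb_nonneg cb_le
  have h1 : Tendsto (fun n : ℕ => Real.sqrt (2 * (n : ℝ) + 1)) atTop atTop := by
    apply Real.tendsto_sqrt_atTop.comp
    apply tendsto_atTop_add_const_right
    exact Tendsto.const_mul_atTop (by norm_num) tendsto_natCast_atTop_atTop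
  simpa using h1.const_div_atTop 1

theorem fr_one (N : ℕ) : fr N 1 / 12 ^ N = ct N / 4 ^ N := by
  rw [show (1 : ℕ) = 0 + 1 by rfl, fr_succ]
  have h := ct_eq N
  rw [show 2 * N + 0 = 2 * N by ring, show N + 0 + 1 = N + 1 by ring, ← h]
  have h1 := fac_ne N
  have h2 := fac_ne (N + 1)
  rw [show (12 : ℝ) = 3 * 4 by norm_num, mul_pow]
  push_cast
  field_simp
  ring

theorem ct_cb (N : ℕ) : ct N * (N + 1) = cb N * 4 ^ N := by
  unfold ct cb
  have h1 : (N + 1) * catalan N = N.centralBinom := succ_mul_catalan_eq_centralBinom N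
  have h3 : ((N : ℝ) + 1) * catalan N = N.centralBinom := by exact_mod_cast h1
  rw [div_mul_cancel₀ _ (by positivity), ← h3]
  ring

theorem partial_sum (N : ℕ) : ∑ n ∈ Finset.range N, ct n / 4 ^ n = 2 - 2 * cb N := by
  induction N with
  | zero => simp [cb]
  | succ N ih =>
    rw [Finset.sum_range_succ, ih]
    have h1 := cb_succ N
    have h2 := ct_cb N
    have h3 : ct N / 4 ^ N = cb N / (N + 1) := by
      rw [div_eq_div_iff (by positivity) (by positivity)]
      linear_combination h2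
    have h4 : cb (N + 1) = cb N * (2 * N + 1) / (2 * N + 2) := by
      rw [eq_div_iff (by positivity)]
      exact h1
    rw [h3, h4]
    have h5 : (N : ℝ) + 1 ≠ 0 := by positivity
    have h6 : 2 * (N : ℝ) + 2 = 2 * (N + 1) := by ring
    rw [h6]
    field_simp
    ring

theorem ct_nonneg (n : ℕ) : 0 ≤ ct n := by unfold ct; positivity

theorem fr_sum (P : ℕ) : HasSum (fun N => fr N P / 12 ^ N) (2 ^ P) ∧
    HasSum (fun N => fr N (P + 1) / 12 ^ N) (2 ^ (P + 1)) := by
  induction P with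
  | zero =>
    constructor
    · have : (fun N => fr N 0 / 12 ^ N) = fun N => if N = 0 then (1 : ℝ) else 0 := by
        funext N
        rcases N with _ | N
        · simp [fr_zero]
        · simp [fr_nil]
      rw [this, pow_zero]
      exact hasSum_ite_eq 0 1
    · have : (fun N => fr N (0 + 1) / 12 ^ N) = fun N => ct N / 4 ^ N := by
        funext N
        exact fr_one N
      rw [this, hasSum_iff_tendsto_nat_of_nonneg (fun i => div_nonneg (ct_nonneg i) (by positivity))]
      simp only [partial_sum]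
      have := cb_tendsto.const_mul 2
      have h2 := this.const_sub 2
      simpa using h2
  | succ P ih =>
    refine ⟨ih.2, ?_⟩
    have h1 : (fun N => fr N (P + 1 + 1) / 12 ^ N) =
        fun N => 4 * (fr (N + 1) (P + 1) / 12 ^ (N + 1) - fr (N + 1) P / 12 ^ (N + 1)) := by
      funext N
      rw [fr_rec, pow_succ]
      have : P + 1 + 1 = P + 2 := rfl
      rw [this]
      field_simp
      ring
    rw [h1]
    have h2 : HasSum (fun N => fr (N + 1) (P + 1) / 12 ^ (N + 1)) (2 ^ (P + 1) - 1) := by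
      have := (hasSum_nat_add_iff' (f := fun N => fr N (P + 1) / 12 ^ N) 1).mpr ih.2
      simpa [fr_zero] using this
    have h3 : HasSum (fun N => fr (N + 1) P / 12 ^ (N + 1)) (2 ^ P - 1) := by
      have := (hasSum_nat_add_iff' (f := fun N => fr N P / 12 ^ N) 1).mpr ih.1
      simpa [fr_zero] using this
    have h4 := (h2.sub h3).mul_left 4
    have h5 : (2 : ℝ) ^ (P + 1 + 1) = 4 * (2 ^ (P + 1) - 1 - (2 ^ P - 1)) := by
      rw [pow_succ, pow_succ]
      ring
    rw [h5]
    exact h4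

end

end H11

theorem st_T12 : ST_T12 := by
  intro κ hκ
  refine ⟨H11.al κ * 2 ^ κ - H11.be κ * 2 ^ (κ + 1), ?_, ?_⟩
  · have h := ((H11.fr_sum κ).1.mul_left (H11.al κ)).sub ((H11.fr_sum κ).2.mul_left (H11.be κ))
    refine h.congr_fun ?_
    intro N
    rw [H11.uu_eq N κ hκ]
    ring
  · have h1 := H11.al_eq κ
    have h2 := H11.be_eq κ
    have h3 := H11.ct_cb κ
    have hk : (1 : ℝ) ≤ κ := by exact_mod_cast hκ
    have h4 : H11.al κ = 2 * H11.ct κ * (κ + 1) / (κ + 2) := by
      rw [eq_div_iff (by positivity)]; exact h1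
    have h5 : H11.be κ = H11.ct κ * κ / (κ + 2) := by
      rw [eq_div_iff (by positivity)]; exact h2
    have h6 : H11.ct κ = H11.cb κ * 4 ^ κ / (κ + 1) := by
      rw [eq_div_iff (by positivity)]; exact h3
    have h7 : H11.al κ * 2 ^ κ - H11.be κ * 2 ^ (κ + 1) =
        2 * 8 ^ κ * H11.cb κ / ((κ + 1) * (κ + 2)) := by
      rw [h4, h5, h6, pow_succ, show (8 : ℝ) = 4 * 2 by norm_num, mul_pow]
      field_simp
      ring
    rw [h7]
    have h8 : (κ : ℝ) ^ (5 / 2 : ℝ) = κ ^ 2 * Real.sqrt κ := by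
      rw [Real.sqrt_eq_rpow, ← Real.rpow_natCast, ← Real.rpow_add (by positivity)]
      norm_num
    rw [h8]
    have h9 := H11.cb_le κ
    have h10 : Real.sqrt κ ≤ Real.sqrt (2 * κ + 1) := Real.sqrt_le_sqrt (by linarith)
    have h11 : H11.cb κ * Real.sqrt κ ≤ 1 := by
      calc H11.cb κ * Real.sqrt κ ≤ (1 / Real.sqrt (2 * κ + 1)) * Real.sqrt (2 * κ + 1) := by
            apply mul_le_mul h9 h10 (Real.sqrt_nonneg _) (by positivity)
        _ = 1 := by field_simp
    rw [div_le_div_iff₀ (by positivity) (by positivity)]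
    have h12 : (κ : ℝ) ^ 2 ≤ (κ + 1) * (κ + 2) := by nlinarith
    calc 2 * (8 : ℝ) ^ κ * H11.cb κ * ((κ : ℝ) ^ 2 * Real.sqrt κ)
        = 2 * (8 : ℝ) ^ κ * ((κ : ℝ) ^ 2 * (H11.cb κ * Real.sqrt κ)) := by ring
      _ ≤ 2 * (8 : ℝ) ^ κ * (((κ : ℝ) + 1) * ((κ : ℝ) + 2) * 1) := by
          apply mul_le_mul_of_nonneg_left _ (by positivity)
          apply mul_le_mul h12 h11 (mul_nonneg (H11.cb_nonneg κ) (Real.sqrt_nonneg _))
            (by positivity)
      _ = 2 * (8 : ℝ) ^ κ * (((κ : ℝ) + 1) * ((κ : ℝ) + 2)) := by ring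

end QR
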