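import Pool.Agent.Helper98.QR.StmtsT

/-!
# Common lemmas for block T: the numbers `[g^N] R^P` with `R = 1 + 3 g R^2`
-/

namespace QR
namespace H11

noncomputable section

/-- `[g^N] R^P`, closed form -/
def fr (N P : ℕ) : ℝ :=
  if P = 0 then (if N = 0 then 1 else 0)
  else 3 ^ N * P * (2 * N + P - 1).factorial / (N.factorial * (N + P).factorial)

theorem fr_zero (P : ℕ) : fr 0 P = 1 := by
  unfold fr
  rcases P with _ | p
  · simp
  · have h1 : ((p + 1).factorial : ℝ) ≠ 0 := by positivity
    have h2 : ((p + 1).factorial : ℝ) = (p + 1) * p.factorial := by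
      rw [Nat.factorial_succ]; push_cast; ring
    have h3 : (p.factorial : ℝ) ≠ 0 := by positivity
    simp only [Nat.succ_ne_zero, if_false, pow_zero, one_mul, mul_zero, Nat.factorial_zero,
      Nat.cast_one, zero_add, Nat.add_sub_cancel]
    rw [h2]
    push_cast
    have h4 : ((p : ℝ) + 1) ≠ 0 := by positivity
    field_simp

theorem fr_nil (N : ℕ) : fr (N + 1) 0 = 0 := by
  unfold fr
  simp

theorem fr_succ (N p : ℕ) : fr N (p + 1) =
    3 ^ N * (p + 1) * (2 * N + p).factorial / (N.factorial * (N + p + 1).factorial) := by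
  unfold fr
  rw [if_neg (Nat.succ_ne_zero p)]
  have h1 : 2 * N + (p + 1) - 1 = 2 * N + p := by omega
  rw [h1]
  push_cast
  rw [show N + (p + 1) = N + p + 1 by omega]

theorem fac_succ (n : ℕ) : ((n + 1).factorial : ℝ) = (n + 1) * n.factorial := by
  rw [Nat.factorial_succ]; push_cast; ring

theorem fac_ne (n : ℕ) : (n.factorial : ℝ) ≠ 0 := by positivity

/-- the recursion -/
theorem fr_rec (N P : ℕ) : fr (N + 1) (P + 1) = fr (N + 1) P + 3 * fr N (P + 2) := by
  rcases P with _ | p
  · rw [fr_nil, fr_succ, fr_succ]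
    rw [show 2 * (N + 1) + 0 = (2 * N + 1) + 1 by ring, show N + 1 + 0 + 1 = N + 1 + 1 by ring]
    rw [fac_succ (2 * N + 1), fac_succ N]
    have h1 := fac_ne N
    have h2 := fac_ne (N + 1 + 1)
    have h4 : ((N : ℝ) + 1) ≠ 0 := by positivity
    push_cast
    field_simp
    ring
  · rw [fr_succ, fr_succ, show p + 1 + 2 = (p + 2) + 1 by ring, fr_succ]
    rw [show 2 * (N + 1) + (p + 1) = (2 * N + (p + 2)) + 1 by ring,
      show 2 * (N + 1) + p = 2 * N + (p + 2) by ring,
      show N + 1 + (p + 1) + 1 = (N + (p + 2)) + 1 by ring,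
      show N + 1 + p + 1 = N + (p + 2) by ring]
    rw [fac_succ (2 * N + (p + 2)), fac_succ N, fac_succ (N + (p + 2))]
    have h1 := fac_ne N
    have h2 := fac_ne (N + (p + 2))
    have h4 : ((N : ℝ) + 1) ≠ 0 := by positivity
    have h5 : (N : ℝ) + (p + 2) + 1 ≠ 0 := by positivity
    push_cast
    field_simp
    ring

/-- Catalan numbers as real numbers -/
def ct (P : ℕ) : ℝ := (catalan P : ℝ)

theorem ct_eq (P : ℕ) : ct P * (P.factorial * (P + 1).factorial) = (2 * P).factorial := by
  unfold ct
  have h1 : (P + 1) * catalan P = P.centralBinom := succ_mul_catalan_eq_centralBinom P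
  have h2 : P.centralBinom * P.factorial * P.factorial = (2 * P).factorial := by
    have := Nat.choose_mul_factorial_mul_factorial (show P ≤ 2 * P by omega)
    rw [show 2 * P - P = P by omega] at this
    rw [Nat.centralBinom_eq_two_mul_choose]
    exact this
  have h3 : ((P + 1) * catalan P : ℝ) = P.centralBinom := by exact_mod_cast h1
  have h4 : (P.centralBinom * P.factorial * P.factorial : ℝ) = (2 * P).factorial := by
    exact_mod_cast h2
  rw [fac_succ P]
  rw [← h4, ← h3]
  ring

theorem ct_succ (P : ℕ) : ct (P + 1) * (P + 2) = ct P * (4 * P + 2) := by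
  have h1 := ct_eq P
  have h2 := ct_eq (P + 1)
  rw [show 2 * (P + 1) = (2 * P + 1) + 1 by ring, fac_succ (2 * P + 1), fac_succ (2 * P),
    fac_succ (P + 1)] at h2
  rw [← h1, fac_succ P] at h2
  have h3 := fac_ne P
  have h4 : ((P : ℝ) + 1) ≠ 0 := by positivity
  push_cast at h2
  have h5 : ((P : ℝ) + 1) * (P.factorial : ℝ) * (((P : ℝ) + 1) * P.factorial) ≠ 0 := by positivity
  apply mul_right_cancel₀ h5
  linear_combination h2

/-- coefficients -/
def al (P : ℕ) : ℝ := (ct (P + 1) + 2 * ct P) / 3

def be (P : ℕ) : ℝ := (ct (P + 1) - ct P) / 3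

theorem al_eq (P : ℕ) : al P * (P + 2) = 2 * ct P * (P + 1) := by
  unfold al
  have := ct_succ P
  linear_combination this / 3

theorem be_eq (P : ℕ) : be P * (P + 2) = ct P * P := by
  unfold be
  have := ct_succ P
  linear_combination this / 3

theorem UN_eq (N P : ℕ) : UN N P = al P * fr N P - be P * fr N (P + 1) := by
  rcases P with _ | p
  · have h1 : al 0 = 1 := by
      have := al_eq 0
      simp [ct] at this
      linarith
    have h2 : be 0 = 0 := by
      have := be_eq 0
      simp at this
      linarith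
    rw [h1, h2]
    unfold UN fr
    simp
  · unfold UN
    rw [if_neg (Nat.succ_ne_zero p)]
    unfold uu
    rw [fr_succ, fr_succ]
    rw [show 2 * N + (p + 1) - 1 = 2 * N + p by omega, show p + 1 - 1 = p by omega,
      show 2 * N + (p + 1) = 2 * N + p + 1 by omega,
      show N + (p + 1) + 1 = N + p + 1 + 1 by omega]
    have h1 := al_eq (p + 1)
    have h2 := be_eq (p + 1)
    have h3 := ct_eq (p + 1)
    have h4 : ((p : ℝ) + 3) ≠ 0 := by positivity
    have h5 : al (p + 1) = 2 * ct (p + 1) * (p + 2) / (p + 3) := by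
      rw [eq_div_iff h4]
      push_cast at h1
      linear_combination h1
    have h6 : be (p + 1) = ct (p + 1) * (p + 1) / (p + 3) := by
      rw [eq_div_iff h4]
      push_cast at h2
      linear_combination h2
    rw [h5, h6, ← h3, fac_succ (p + 1), fac_succ p, fac_succ (2 * N + p), fac_succ (N + p + 1)]
    have e1 := fac_ne p
    have e2 := fac_ne N
    have e3 := fac_ne (N + p + 1)
    have e4 : ((p : ℝ) + 1) ≠ 0 := by positivity
    have e5 : (N : ℝ) + p + 1 + 1 ≠ 0 := by positivity
    push_cast
    field_simp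
    ring

theorem uu_eq (N P : ℕ) (h : 1 ≤ P) : uu N P = al P * fr N P - be P * fr N (P + 1) := by
  rw [← UN_eq]
  unfold UN
  rw [if_neg (by omega)]

end

end H11
end QR
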